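import Pool.Agent.Helper32.AG.Goals

/-!
# PROJECT AG, packet N4
-/

set_option autoImplicit false

namespace Pool.Agent.Helper11.AG

open Pool.Agent.Helper32.AG

theorem two_sq_le : ∀ a : ℕ, 0 < a → 2 * a ^ 2 ≤ 3 ^ a := by
  intro a ha
  have key : ∀ n : ℕ, 2 * (n + 3) ^ 2 ≤ 3 ^ (n + 3) := by
    intro n
    induction n with
    | zero => norm_num
    | succ n ih =>
      have h1 : 3 ^ (n + 1 + 3) = 3 * 3 ^ (n + 3) := by ring
      rw [h1]
      have h2 : 2 * (n + 1 + 3) ^ 2 ≤ 3 * (2 * (n + 3) ^ 2) := by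
        nlinarith [Nat.zero_le n, Nat.zero_le (n ^ 2)]
      exact h2.trans (Nat.mul_le_mul_left 3 ih)
  rcases a with _ | _ | _ | a
  · omega
  · norm_num
  · norm_num
  · exact key a

theorem four_le : ∀ X : ℕ, X ^ 4 ≤ 3 ^ (X + 3) := by
  have key : ∀ n : ℕ, (n + 4) ^ 4 ≤ 3 ^ (n + 4 + 3) := by
    intro n
    induction n with
    | zero => norm_num
    | succ n ih =>
      have h1 : 3 ^ (n + 1 + 4 + 3) = 3 * 3 ^ (n + 4 + 3) := by ring
      rw [h1]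
      have h2 : (n + 1 + 4) ^ 4 ≤ 3 * (n + 4) ^ 4 := by
        nlinarith [Nat.zero_le (n ^ 4), Nat.zero_le (n ^ 3), Nat.zero_le (n ^ 2)]
      exact h2.trans (Nat.mul_le_mul_left 3 ih)
  intro X
  rcases X with _ | _ | _ | _ | X
  · norm_num
  · norm_num
  · norm_num
  · norm_num
  · exact key X

theorem cubic (t X : ℕ) (ht : 2 ≤ t) (hX : t + 1 ≤ X) :
    (X + 2) * ((t + 1) * t ^ 2) + 1 < X * (t + 1) ^ 3 := by
  have h1 : (t + 1) * ((t + 1) * (2 * t + 1)) ≤ X * ((t + 1) * (2 * t + 1)) :=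
    Nat.mul_le_mul_right _ hX
  have h2 : 2 * ((t + 1) * t ^ 2) + 1 < (t + 1) * ((t + 1) * (2 * t + 1)) := by
    nlinarith [Nat.zero_le (t ^ 2)]
  have h3 : X * (t + 1) ^ 3 = X * ((t + 1) * t ^ 2) + X * ((t + 1) * (2 * t + 1)) := by ring
  rw [h3, add_mul]
  omega

theorem n4 : N4Stmt := by
  intro p a b r hp hp2 ha hb h
  have hp3 : 3 ≤ p := by
    have := hp.two_le
    omega
  set q := p ^ a with hq
  have hq3 : 3 ^ a ≤ q := Nat.pow_le_pow_left hp3 a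
  have hq3' : 3 ≤ q := le_trans (by
    calc 3 = 3 ^ 1 := by norm_num
      _ ≤ 3 ^ a := Nat.pow_le_pow_right (by norm_num) ha) hq3
  have h2a : 2 * a ^ 2 ≤ q := (two_sq_le a ha).trans hq3
  have e1 : p ^ (2 * a * b) = q ^ (2 * b) := by
    rw [hq, ← pow_mul]
    congr 1
    ring
  rw [e1] at h ⊢
  obtain ⟨c, rfl⟩ : ∃ c, b = c + 2 := ⟨b - 2, by omega⟩
  set X := q ^ (2 * c + 1) with hX
  have e2 : q ^ (2 * (c + 2)) = X * q ^ 3 := by
    rw [hX, ← pow_add]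
    congr 1
  have hXq : q ≤ X := by
    calc q = q ^ 1 := (pow_one q).symm
      _ ≤ q ^ (2 * c + 1) := Nat.pow_le_pow_right (by omega) (by omega)
  rw [e2] at h ⊢
  have hr : X + 3 ≤ r := by
    by_contra hcon
    have hr2 : r ≤ X + 2 := by omega
    obtain ⟨t, ht⟩ : ∃ t, q = t + 1 := ⟨q - 1, by omega⟩
    have h3 : r * (2 * a ^ 2 * (q - 1) ^ 2) ≤ (X + 2) * (q * (q - 1) ^ 2) :=
      Nat.mul_le_mul hr2 (Nat.mul_le_mul_right _ h2a)
    have h4 : X * q ^ 3 ≤ (X + 2) * (q * (q - 1) ^ 2) + 1 := h.trans (Nat.add_le_add_right h3 1)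
    rw [ht] at h4 hXq
    simp only [Nat.add_sub_cancel] at h4
    have ht2 : 2 ≤ t := by omega
    exact absurd h4 (not_le.2 (cubic t X ht2 hXq))
  calc X * q ^ 3 ≤ X * X ^ 3 := Nat.mul_le_mul_left _ (Nat.pow_le_pow_left hXq 3)
    _ = X ^ 4 := by ring
    _ ≤ 3 ^ (X + 3) := four_le X
    _ ≤ 3 ^ r := Nat.pow_le_pow_right (by norm_num) hr

end Pool.Agent.Helper11.AG
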